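import Pool.Agent.H90.DgDefs
import Pool.Agent.H90.DgB

namespace Pool.Agent.Results.MP_ecafc5_an.Diverge

open Pool.Agent.H90.WDGA Filter Topology

/-- A uniformly smooth Banach space of power type 2, a dictionary and a sequence of residuals that
is an admissible run of WDGA(t) for every `t ∈ (0,1]` and stays outside the open unit ball. -/
theorem result : ∃ (X : Type) (_ : NormedAddCommGroup X) (_ : NormedSpace ℝ X)
    (_ : CompleteSpace X),
    Tendsto (fun u => modSmooth X u / u) (𝓝[>] 0) (𝓝 0) ∧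
    (∀ u : ℝ, 0 < u → modSmooth X u ≤ 288 * u ^ 2) ∧
    (∀ x y : X, ‖x‖ = 1 → ‖y‖ = 1 → ∀ u : ℝ, (‖x + u • y‖ + ‖x - u • y‖) / 2 - 1 ≤ 288 * u ^ 2) ∧
    ∃ (D : Set X) (f : ℕ → X), IsDict D ∧ (∀ t : ℝ, 0 < t → t ≤ 1 → IsRun t D f) ∧
      (∀ m, 1 ≤ ‖f m‖) ∧ ¬ Tendsto (fun m => ‖f m‖) atTop (𝓝 0) := by
  obtain ⟨X, i1, i2, i3, hs, D, h1, h2, h3, f, F, φ, a, h4, h5, h6, h7, h8⟩ :=
    Pool.Agent.H90.DG.main
  have hle : ∀ u : ℝ, modSmooth X u ≤ 288 * u ^ 2 := fun u =>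
    Real.sSup_le (by rintro _ ⟨x, y, hx, hy, rfl⟩; exact hs x y hx hy u) (by positivity)
  have hge : ∀ u : ℝ, 0 ≤ modSmooth X u := fun u => Real.sSup_nonneg (by
    rintro _ ⟨x, y, hx, hy, rfl⟩
    have := norm_add_le (x + u • y) (x - u • y)
    rw [show x + u • y + (x - u • y) = (2 : ℝ) • x by rw [two_smul]; abel, norm_smul, hx] at this
    simp only [Real.norm_ofNat] at this
    linarith)
  refine ⟨X, i1, i2, i3, ?_, fun u _ => hle u, hs, D, f, ⟨fun g hg => (h1 g hg).le, h2, h3⟩,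
    fun t ht0 ht1 m => ⟨?_, F m, φ m, a m, (h4 m).1, (h4 m).2, (h5 m).1, ?_, h6 m, h7 m⟩, h8, ?_⟩
  · have t1 : Tendsto (fun u : ℝ => 288 * u) (𝓝[>] 0) (𝓝 0) := by
      have : Tendsto (fun u : ℝ => 288 * u) (𝓝 0) (𝓝 (288 * 0)) :=
        (continuous_const.mul continuous_id).tendsto 0
      rw [mul_zero] at this
      exact this.mono_left nhdsWithin_le_nhds
    refine squeeze_zero' ?_ ?_ t1
    · filter_upwards [self_mem_nhdsWithin] with u hu using div_nonneg (hge u) (le_of_lt hu)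
    · filter_upwards [self_mem_nhdsWithin] with u hu
      rw [div_le_iff₀ hu]
      linarith [hle u]
  · intro h0
    have := h8 m
    rw [h0, norm_zero] at this
    exact absurd this (by norm_num)
  · have a1 : sSup (F m '' D) ≤ F m (φ m) :=
      csSup_le ⟨_, φ m, (h5 m).1, rfl⟩ (by rintro _ ⟨g, hg, rfl⟩; exact (h5 m).2 g hg)
    have a2 := (h5 m).2 _ (h2 _ (h5 m).1)
    rw [map_neg] at a2
    nlinarith
  · intro t
    exact absurd (ge_of_tendsto' t h8) (by norm_num)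

end Pool.Agent.Results.MP_ecafc5_an.Diverge
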